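import Pool.Agent.Y659.MPS.Stm

/-!
# KLA: existence of the relation and dead letter
-/

set_option autoImplicit false

namespace Pool.Agent.Y495.MPS

open Matrix
open Pool.Agent.Results.MP_8bfff4_mp.ExactValue
open Pool.Agent.Y659.MPS

section

variable {D : ℕ} {W : Submodule ℂ (Matrix (Fin D) (Fin D) ℂ)}
  {X Xi x y m : Matrix (Fin D) (Fin D) ℂ} {p q : ℕ} {la lb : ℕ → Matrix (Fin D) (Fin D) ℂ}

lemma pmm {k : ℕ} {z w : Matrix (Fin D) (Fin D) ℂ} (hz : z ∈ W ^ k) (hw : w ∈ W) :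
    z * w ∈ W ^ (k + 1) := by
  rw [pow_succ]; exact Submodule.mul_mem_mul hz hw

lemma mpm {k : ℕ} {z w : Matrix (Fin D) (Fin D) ℂ} (hz : z ∈ W ^ k) (hw : w ∈ W) :
    w * z ∈ W ^ (k + 1) := by
  rw [pow_succ']; exact Submodule.mul_mem_mul hw hz

lemma memV {k : ℕ} {z : Matrix (Fin D) (Fin D) ℂ} (hz : z ∈ W ^ k) : X * z ∈ ln X * W ^ k :=
  mem_ln_mul.2 ⟨z, hz, rfl⟩

lemma V_mul {k : ℕ} {z w : Matrix (Fin D) (Fin D) ℂ} (hz : z ∈ ln X * W ^ k) (hw : w ∈ W) :
    z * w ∈ ln X * W ^ (k + 1) := by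
  obtain ⟨z', hz', rfl⟩ := mem_ln_mul.1 hz
  rw [mul_assoc]
  exact memV (pmm hz' hw)

lemma V_le {k : ℕ} (hX : X ∈ W) : ln X * W ^ k ≤ W ^ (k + 1) := by
  intro z hz
  obtain ⟨z', hz', rfl⟩ := mem_ln_mul.1 hz
  exact mpm hz' hX

lemma VR_le {k : ℕ} (hX : X ∈ W) : ln X * W ^ k ⊔ W ^ k * ln X ≤ W ^ (k + 1) := by
  apply sup_le (V_le hX)
  intro z hz
  obtain ⟨z', hz', rfl⟩ := mem_mul_ln.1 hz
  exact pmm hz' hX

lemma Wsucc (F : Flat W X) {k : ℕ} (hk : 1 ≤ k) (hkD : k + 1 ≤ D) :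
    W ^ (k + 1) = ln X * W ^ k ⊔ W ^ k * ln X := by
  refine (eq_of_le_of_fr_le (VR_le F.hX) ?_).symm
  rw [F.hd (k + 1) hkD, F.he k hk (by omega)]

/-- the swapped level -/
lemma swap (L : Lev W X Xi x y m p q la lb) : Lev W X Xi y x m q p lb la where
  hm := by rw [add_comm]; exact L.hm
  cx := L.cy
  cy := L.cx
  ha := fun i hi => ⟨(L.hb i hi).1.symm, (L.hb i hi).2.1, (L.hb i hi).2.2⟩
  hb := fun i hi => ⟨(L.ha i hi).1.symm, (L.ha i hi).2.1, (L.ha i hi).2.2⟩
  la0 := L.lb0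
  lb0 := L.la0
  ia := fun j hj => by rw [add_comm]; exact L.ib j hj
  ib := fun j hj => by rw [add_comm]; exact L.ia j hj
  sp := fun U h1 h2 h3 => by rw [add_comm]; exact L.sp U h1 h3 h2

lemma Xi_pow (h2 : Xi * X = 1) {j : ℕ} : Xi ^ (j + 1) * X = Xi ^ j := by
  rw [pow_succ, mul_assoc, h2, mul_one]

lemma X_Xi_pow (h1 : X * Xi = 1) : ∀ j : ℕ, X ^ (j + 1) * Xi ^ j = X := by
  intro j
  induction j with
  | zero => simp
  | succ j ih =>
    calc X ^ (j + 1 + 1) * Xi ^ (j + 1) = X ^ (j + 1) * (X * Xi) * Xi ^ j := by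
          rw [pow_succ X (j + 1), pow_succ' Xi j]; simp only [mul_assoc]
      _ = X := by rw [h1, mul_one, ih]

lemma X_Xi_pow' (h1 : X * Xi = 1) : ∀ j : ℕ, X ^ j * Xi ^ j = 1 := by
  intro j
  induction j with
  | zero => simp
  | succ j ih =>
    calc X ^ (j + 1) * Xi ^ (j + 1) = X ^ j * (X * Xi) * Xi ^ j := by
          rw [pow_succ X j, pow_succ' Xi j]; simp only [mul_assoc]
      _ = 1 := by rw [h1, mul_one, ih]

/-- `m x` in terms of the generators -/
lemma mx_eq (L : Lev W X Xi x y m p q la lb) (h1 : X * Xi = 1) (hp : 1 ≤ p) :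
    m * x = X * (X ^ (p - 1) * x * m * Xi ^ (p - 1 + 1)) := by
  obtain ⟨r, rfl⟩ : ∃ r, p = r + 1 := ⟨p - 1, by omega⟩
  simp only [Nat.add_sub_cancel]
  have h := L.cx
  calc m * x = m * x * (X ^ (r + 1) * Xi ^ (r + 1)) := by rw [X_Xi_pow' h1, mul_one]
    _ = (m * x * X ^ (r + 1)) * Xi ^ (r + 1) := by rw [mul_assoc (m * x)]
    _ = (X ^ (r + 1) * x * m) * Xi ^ (r + 1) := by rw [h]
    _ = _ := by rw [pow_succ' X r]; simp only [mul_assoc]

lemma mx_mem (L : Lev W X Xi x y m p q la lb) (h1 : X * Xi = 1) (hp : 1 ≤ p) :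
    m * x ∈ ln X * W ^ (p + q) := by
  rw [mx_eq L h1 hp]
  exact memV (L.ia (p - 1) (by omega))

lemma L1 (F : Flat W X) (L : Lev W X Xi x y m p q la lb) (h1 : X * Xi = 1) (h2 : Xi * X = 1)
    (hxy : x + y = X) (hp : 1 ≤ p) (hq : 1 ≤ q) (hD : p + q + 1 ≤ D) :
    W ^ (p + q + 1) ≤ ln X * W ^ (p + q) ⊔ ln (x * m) := by
  rw [Wsucc F (by omega) hD]
  apply sup_le le_sup_left
  set R := ln X * W ^ (p + q) ⊔ ln (x * m) with hR
  have hV : ln X * W ^ (p + q) ≤ R := le_sup_left
  have hxm : x * m ∈ R := le_sup_right (a := ln X * W ^ (p + q)) (mem_ln_self (x * m))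
  have key : W ^ (p + q) ≤ R.comap (LinearMap.mulRight ℂ X) := by
    apply L.sp
    · show m * X ∈ R
      rw [← hxy, mul_add]
      exact R.add_mem (hV (mx_mem L h1 hp)) (hV (by
        have := mx_mem (swap L) h1 hq
        rwa [add_comm q p] at this))
    · intro j hj
      show X ^ j * x * m * Xi ^ (j + 1) * X ∈ R
      rw [mul_assoc _ _ X, Xi_pow h2]
      rcases j with _ | j
      · simpa using hxm
      · apply hV
        have := memV (X := X) (L.ia j (by omega))
        rw [pow_succ' X j]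
        simpa only [mul_assoc] using this
    · intro j hj
      show X ^ j * y * m * Xi ^ (j + 1) * X ∈ R
      rw [mul_assoc _ _ X, Xi_pow h2]
      rcases j with _ | j
      · have e : X ^ 0 * y * m * Xi ^ 0 = X * m - x * m := by
          rw [pow_zero, pow_zero, mul_one, one_mul, ← hxy, add_mul, add_sub_cancel_left]
        rw [e]
        exact R.sub_mem (hV (memV L.hm)) hxm
      · apply hV
        have := memV (X := X) (L.ib j (by omega))
        rw [pow_succ' X j]
        simpa only [mul_assoc] using this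
  intro z hz
  obtain ⟨z', hz', rfl⟩ := mem_mul_ln.1 hz
  exact key hz'

/-- `W^(n+1)` -/
lemma L2 (F : Flat W X) (L : Lev W X Xi x y m p q la lb) (h1 : X * Xi = 1) (h2 : Xi * X = 1)
    (hxy : x + y = X) (hp : 1 ≤ p) (hq : 1 ≤ q) (hD : p + q + 2 ≤ D) :
    W ^ (p + q + 2) ≤ ln X * W ^ (p + q + 1) ⊔ ln (x * m * X) := by
  rw [Wsucc F (k := p + q + 1) (by omega) (by omega)]
  apply sup_le le_sup_left
  intro z hz
  obtain ⟨z', hz', rfl⟩ := mem_mul_ln.1 hz
  obtain ⟨a, ha, b, hb, rfl⟩ := Submodule.mem_sup.1 (L1 F L h1 h2 hxy hp hq (by omega) hz')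
  rw [add_mul]
  refine Submodule.add_mem _ (Submodule.mem_sup_left (V_mul ha F.hX)) (Submodule.mem_sup_right ?_)
  obtain ⟨c, rfl⟩ := Submodule.mem_span_singleton.1 hb
  rw [smul_mul_assoc]
  exact Submodule.smul_mem _ c (mem_ln_self _)

lemma Q0 (F : Flat W X) (L : Lev W X Xi x y m p q la lb) (h1 : X * Xi = 1) (h2 : Xi * X = 1)
    (hxy : x + y = X) (hp : 1 ≤ p) (hq : 1 ≤ q) (hD : p + q + 2 ≤ D) :
    x * m * X ∉ ln X * W ^ (p + q + 1) := by
  intro h
  have h3 := L2 F L h1 h2 hxy hp hq hD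
  have h4 : W ^ (p + q + 2) ≤ ln X * W ^ (p + q + 1) := h3.trans (sup_le le_rfl (ln_le.2 h))
  have h5 := fr_mono h4
  rw [fr_ln_mul F.hXu, F.hd _ hD, F.hd _ (by omega)] at h5
  omega

lemma Q1 (F : Flat W X) (L : Lev W X Xi x y m p q la lb) (h1 : X * Xi = 1) (h2 : Xi * X = 1)
    (hxy : x + y = X) (hp : 1 ≤ p) (hq : 1 ≤ q) (hD : p + q + 2 ≤ D) :
    x * m * X * X ∉ ln X * W ^ (p + q + 2) := by
  intro h
  have h3 : ln X * W ^ (p + q + 2) ⊔ W ^ (p + q + 2) * ln X ≤ ln X * W ^ (p + q + 2) := by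
    apply sup_le le_rfl
    intro z hz
    obtain ⟨z', hz', rfl⟩ := mem_mul_ln.1 hz
    obtain ⟨a, ha, b, hb, rfl⟩ := Submodule.mem_sup.1 (L2 F L h1 h2 hxy hp hq hD hz')
    rw [add_mul]
    refine Submodule.add_mem _ (V_mul ha F.hX) ?_
    obtain ⟨c, rfl⟩ := Submodule.mem_span_singleton.1 hb
    rw [smul_mul_assoc]
    exact Submodule.smul_mem _ c h
  have h5 := fr_mono h3
  rw [fr_ln_mul F.hXu, F.he _ (by omega) hD, F.hd _ hD] at h5
  omega

lemma xxm (L : Lev W X Xi x y m p q la lb) (hp : 1 ≤ p) : x * x * m = 0 ∧ m * x * x = 0 := by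
  obtain ⟨-, h1, h2⟩ := L.ha 0 (by omega)
  rw [L.la0 hp, pow_zero, mul_one] at h1
  rw [L.la0 hp, pow_zero, mul_one] at h2
  exact ⟨h1, h2⟩

/-- reindexing -/
lemma reind (r : ℕ) (g : Fin r → ℂ) (f : ℕ → Matrix (Fin D) (Fin D) ℂ) :
    ∃ α : ℕ → ℂ, (∀ i : Fin r, α (i + 1) = g i) ∧
      ∑ j ∈ Finset.Icc 1 r, α j • f j = ∑ i : Fin r, g i • f (i + 1) := by
  refine ⟨fun j => if h : j - 1 < r then g ⟨j - 1, h⟩ else 0, fun i => ?_, ?_⟩
  · simp
  · have e : Finset.Icc 1 r = (Finset.range r).image (· + 1) := by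
      ext j
      simp only [Finset.mem_Icc, Finset.mem_image, Finset.mem_range]
      constructor
      · rintro ⟨h1, h2⟩; exact ⟨j - 1, by omega, by omega⟩
      · rintro ⟨a, ha, rfl⟩; omega
    rw [e, Finset.sum_image (fun a _ b _ h => Nat.succ_injective h), ← Fin.sum_univ_eq_sum_range
      (fun j => (if h : j + 1 - 1 < r then g ⟨j + 1 - 1, h⟩ else 0) • f (j + 1)) r]
    refine Finset.sum_congr rfl fun i _ => ?_
    simp

/-- the generators are in `ln X * W^(n)` -/
lemma A_mem (F : Flat W X) (L : Lev W X Xi x y m p q la lb) (h2 : Xi * X = 1) {j : ℕ}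
    (hj1 : 1 ≤ j) (hj : j ≤ p) :
    X ^ j * x * m * Xi ^ (j - 1) ∈ ln X * W ^ (p + q + 1) := by
  obtain ⟨r, rfl⟩ : ∃ r, j = r + 1 := ⟨j - 1, by omega⟩
  have h := pmm (L.ia r (by omega)) F.hX
  rw [mul_assoc _ _ X, Xi_pow h2] at h
  have := memV (X := X) h
  rw [Nat.add_sub_cancel, pow_succ' X r]
  simpa only [mul_assoc] using this

/-- multiplication by `x` on the left of the generators -/
lemma xA_mem (hxy : x + y = X) {j : ℕ} {l u k₀ : Matrix (Fin D) (Fin D) ℂ} {k : ℕ}
    (hl : l = x ∨ l = y) (hk : l * X ^ j * u * m = 0) (hA : X ^ j * u * m * k₀ ∈ W ^ k) :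
    x * (X ^ j * u * m * k₀) ∈ ln X * W ^ k := by
  rcases hl with rfl | rfl
  · have : l * (X ^ j * u * m * k₀) = (l * X ^ j * u * m) * k₀ := by simp only [mul_assoc]
    rw [this, hk, zero_mul]
    exact Submodule.zero_mem _
  · have : x * (X ^ j * u * m * k₀) = X * (X ^ j * u * m * k₀) - (l * X ^ j * u * m) * k₀ := by
      rw [← hxy]; simp only [mul_assoc, add_mul, add_sub_cancel_right]
    rw [this, hk, zero_mul, sub_zero]
    exact memV hA

/-- the first case -/
lemma caseA (F : Flat W X) (hx : x ∈ W) (hy : y ∈ W) (L : Lev W X Xi x y m p q la lb)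
    (h1 : X * Xi = 1) (h2 : Xi * X = 1)
    (hxy : x + y = X) (hp : 1 ≤ p) (hq : 1 ≤ q) (hD : p + q + 2 ≤ D)
    (hc : x * m * y ∈ ln X * W ^ (p + q + 1)) :
    ∃ (c cxy cyy : ℂ) (α β : ℕ → ℂ), Rel X Xi x y m p q c cxy cyy α β := by
  have hQ0 := Q0 F L h1 h2 hxy hp hq hD
  have hQ1 := Q1 F L h1 h2 hxy hp hq hD
  set V := ln X * W ^ (p + q + 1) with hV
  set V' := ln X * W ^ (p + q + 2) with hV'
  have hVW : V ≤ W ^ (p + q + 2) := V_le F.hX
  have hmx : m * x ∈ W ^ (p + q + 1) := pmm L.hm hx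
  have hmy : m * y ∈ W ^ (p + q + 1) := pmm L.hm hy
  have hxmx : x * m * x ∈ W ^ (p + q + 2) := by rw [mul_assoc]; exact mpm hmx hx
  have hxmy : x * m * y ∈ W ^ (p + q + 2) := by rw [mul_assoc]; exact mpm hmy hx
  have hymx : y * m * x ∈ W ^ (p + q + 2) := by rw [mul_assoc]; exact mpm hmx hy
  have hymy : y * m * y ∈ W ^ (p + q + 2) := by rw [mul_assoc]; exact mpm hmy hy
  have hA : ∀ j, 1 ≤ j → j ≤ p → X ^ j * x * m * Xi ^ (j - 1) ∈ V :=
    fun j hj1 hj => A_mem F L h2 hj1 hj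
  have hB : ∀ j, 1 ≤ j → j ≤ q → X ^ j * y * m * Xi ^ (j - 1) ∈ V := fun j hj1 hj => by
    have := A_mem F (swap L) h2 hj1 hj
    rwa [add_comm q p] at this
  -- the family
  let v : (Fin 4) ⊕ (Fin p ⊕ Fin q) → Matrix (Fin D) (Fin D) ℂ :=
    Sum.elim ![x * m * x, x * m * y, y * m * x, y * m * y]
      (Sum.elim (fun i => X ^ ((i : ℕ) + 1) * x * m * Xi ^ ((i : ℕ) + 1 - 1))
        (fun i => X ^ ((i : ℕ) + 1) * y * m * Xi ^ ((i : ℕ) + 1 - 1)))
  have hv : ∀ i, v i ∈ W ^ (p + q + 2) := by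
    rintro (i | i | i)
    · fin_cases i
      · exact hxmx
      · exact hxmy
      · exact hymx
      · exact hymy
    · exact hVW (hA _ (by omega) (by omega))
    · exact hVW (hB _ (by omega) (by omega))
  have hdep : ¬ LinearIndependent ℂ v := by
    intro hli
    have h3 := finrank_span_eq_card hli
    have h4 : Module.finrank ℂ (Submodule.span ℂ (Set.range v)) ≤ fr (W ^ (p + q + 2)) := by
      apply Submodule.finrank_mono
      rw [Submodule.span_le]
      rintro _ ⟨i, rfl⟩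
      exact hv i
    rw [h3, F.hd _ hD] at h4
    simp at h4
    omega
  obtain ⟨g, hg, i₀, hi₀⟩ := Fintype.not_linearIndependent_iff.1 hdep
  rw [Fintype.sum_sum_type, Fintype.sum_sum_type, Fin.sum_univ_four] at hg
  obtain ⟨α, hα, hαs⟩ := reind (D := D) p (fun i => g (Sum.inr (Sum.inl i)))
    (fun j => X ^ j * x * m * Xi ^ (j - 1))
  obtain ⟨β, hβ, hβs⟩ := reind (D := D) q (fun i => g (Sum.inr (Sum.inr i)))
    (fun j => X ^ j * y * m * Xi ^ (j - 1))
  set SA := ∑ j ∈ Finset.Icc 1 p, α j • (X ^ j * x * m * Xi ^ (j - 1)) with hSA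
  set SB := ∑ j ∈ Finset.Icc 1 q, β j • (X ^ j * y * m * Xi ^ (j - 1)) with hSB
  obtain ⟨cxx, hcxx⟩ : ∃ c, c = g (Sum.inl 0) := ⟨_, rfl⟩
  obtain ⟨cxy, hcxy⟩ : ∃ c, c = g (Sum.inl 1) := ⟨_, rfl⟩
  obtain ⟨cyx, hcyx⟩ : ∃ c, c = g (Sum.inl 2) := ⟨_, rfl⟩
  obtain ⟨cyy, hcyy⟩ : ∃ c, c = g (Sum.inl 3) := ⟨_, rfl⟩
  have hrel : cxx • (x * m * x) + cxy • (x * m * y) + cyx • (y * m * x) + cyy • (y * m * y) +
      (SA + SB) = 0 := by
    rw [hαs, hβs, hcxx, hcxy, hcyx, hcyy]
    exact hg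
  have hSAV : SA ∈ V := Submodule.sum_mem _ fun j hj => by
    rw [Finset.mem_Icc] at hj
    exact V.smul_mem _ (hA j hj.1 hj.2)
  have hSBV : SB ∈ V := Submodule.sum_mem _ fun j hj => by
    rw [Finset.mem_Icc] at hj
    exact V.smul_mem _ (hB j hj.1 hj.2)
  -- `cxx = cyx`
  have hxmxV : x * m * x ∉ V := by
    intro h
    apply hQ0
    rw [← hxy, mul_add]
    exact V.add_mem h hc
  have hXmx : X * (m * x) ∈ V := memV hmx
  have hXmy : X * (m * y) ∈ V := memV hmy
  have hymyV : y * m * y ∈ V := by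
    have : y * m * y = X * (m * y) - x * m * y := by
      rw [← hxy]; simp only [mul_assoc, add_mul, add_sub_cancel_left]
    rw [this]
    exact V.sub_mem hXmy hc
  have hymxe : y * m * x = X * (m * x) - x * m * x := by
    rw [← hxy]; simp only [mul_assoc, add_mul, add_sub_cancel_left]
  have hcc : cxx = cyx := by
    by_contra hne
    apply hxmxV
    have h3 : (cxx - cyx) • (x * m * x) = -(cxy • (x * m * y) + cyx • (X * (m * x)) +
        cyy • (y * m * y) + (SA + SB)) := by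
      have h4 := hrel
      rw [hymxe] at h4
      rw [sub_smul]
      rw [smul_sub] at h4
      have h5 : cxx • (x * m * x) - cyx • (x * m * x) + (cxy • (x * m * y) + cyx • (X * (m * x)) +
        cyy • (y * m * y) + (SA + SB)) = 0 := by
        rw [← h4]; abel
      exact eq_neg_of_add_eq_zero_left h5
    have h4 : (cxx - cyx) • (x * m * x) ∈ V := by
      rw [h3]
      exact V.neg_mem (V.add_mem (V.add_mem (V.add_mem (V.smul_mem _ hc) (V.smul_mem _ hXmx))
        (V.smul_mem _ hymyV)) (V.add_mem hSAV hSBV))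
    exact (V.smul_mem_iff (sub_ne_zero.2 hne)).1 h4
  have hrel2 : cxx • (X * m * x) + cxy • (x * m * y) + cyy • (y * m * y) + SA + SB = 0 := by
    rw [← hrel, ← hcc, hymxe]
    rw [smul_sub, mul_assoc X m x]
    abel
  refine ⟨cxx, cxy, cyy, α, β, ?_, ?_, hrel2⟩
  · -- nontrivial
    rcases i₀ with i | i | i
    · fin_cases i
      · left; rw [hcxx]; exact hi₀
      · right; left; rw [hcxy]; exact hi₀
      · left; rw [hcc, hcyx]; exact hi₀
      · right; right; left; rw [hcyy]; exact hi₀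
    · right; right; right; left
      exact ⟨i + 1, by omega, by omega, by rw [hα]; exact hi₀⟩
    · right; right; right; right
      exact ⟨i + 1, by omega, by omega, by rw [hβ]; exact hi₀⟩
  · -- `α p = 0`
    by_contra hne
    apply hQ1
    obtain ⟨hxxm, hmxx⟩ := xxm L hp
    obtain ⟨hyym, hmyy⟩ := xxm (swap L) hq
    -- multiply the relation by `x`
    have hx0 : x * (cxx • (X * m * x) + cxy • (x * m * y) + cyy • (y * m * y) + SA + SB) = 0 := by
      rw [hrel2, mul_zero]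
    have t1 : x * (X * m * x) ∈ V' := by
      have : x * (X * m * x) = X * (y * m * x) := by
        have e1 : x * (X * m * x) = (x * x * m) * x + (X * y * m) * x - (y * y * m) * x := by
          rw [← hxy]; noncomm_ring
        rw [e1, hxxm, hyym]
        simp only [zero_mul, zero_add, sub_zero, mul_assoc]
      rw [this]
      exact memV hymx
    have t2 : x * (x * m * y) = 0 := by
      have : x * (x * m * y) = (x * x * m) * y := by simp only [mul_assoc]
      rw [this, hxxm, zero_mul]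
    have t3 : x * (y * m * y) ∈ V' := by
      have : x * (y * m * y) = X * (y * m * y) := by
        have e1 : x * (y * m * y) = X * (y * m * y) - (y * y * m) * y := by
          rw [← hxy]; noncomm_ring
        rw [e1, hyym, zero_mul, sub_zero]
      rw [this]
      exact memV hymy
    have t4 : ∀ j, 1 ≤ j → j < p → x * (X ^ j * x * m * Xi ^ (j - 1)) ∈ V' := fun j hj1 hj =>
      xA_mem hxy (L.ha j hj).1 (L.ha j hj).2.1 (hVW (hA j hj1 hj.le))
    have t5 : ∀ j, 1 ≤ j → j < q → x * (X ^ j * y * m * Xi ^ (j - 1)) ∈ V' := fun j hj1 hj =>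
      xA_mem hxy (L.hb j hj).1 (L.hb j hj).2.1 (hVW (hB j hj1 hj.le))
    have t6 : x * (X ^ q * y * m * Xi ^ (q - 1)) ∈ V' := by
      have : x * (X ^ q * y * m * Xi ^ (q - 1)) = x * m * y * X := by
        obtain ⟨r, rfl⟩ : ∃ r, q = r + 1 := ⟨q - 1, by omega⟩
        rw [L.cy, Nat.add_sub_cancel]
        calc x * (m * y * X ^ (r + 1) * Xi ^ r) = x * m * y * (X ^ (r + 1) * Xi ^ r) := by
              simp only [mul_assoc]
          _ = _ := by rw [X_Xi_pow h1]
      rw [this]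
      exact V_mul hc F.hX
    have t7 : x * (X ^ p * x * m * Xi ^ (p - 1)) = x * m * X * X - x * m * y * X := by
      obtain ⟨r, rfl⟩ : ∃ r, p = r + 1 := ⟨p - 1, by omega⟩
      rw [L.cx, Nat.add_sub_cancel]
      calc x * (m * x * X ^ (r + 1) * Xi ^ r) = x * m * x * (X ^ (r + 1) * Xi ^ r) := by
            simp only [mul_assoc]
        _ = _ := by
            have e : x * m * X = x * m * x + x * m * y := by rw [← hxy, mul_add]
            rw [X_Xi_pow h1, e, add_mul, add_sub_cancel_right]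
    have t8 : x * m * y * X ∈ V' := V_mul hc F.hX
    -- sums
    have hSB' : x * SB ∈ V' := by
      rw [hSB, Finset.mul_sum]
      refine Submodule.sum_mem _ fun j hj => ?_
      rw [Finset.mem_Icc] at hj
      rw [mul_smul_comm]
      apply V'.smul_mem
      rcases Nat.lt_or_ge j q with h | h
      · exact t5 j hj.1 h
      · have : j = q := by omega
        rw [this]; exact t6
    have hSA' : x * SA - α p • (x * m * X * X) ∈ V' := by
      have e : Finset.Icc 1 p = insert p (Finset.Icc 1 (p - 1)) := by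
        ext j
        simp only [Finset.mem_Icc, Finset.mem_insert]
        omega
      rw [hSA, e, Finset.sum_insert (by simp only [Finset.mem_Icc]; omega), mul_add,
        mul_smul_comm, t7, smul_sub]
      have h3 : x * ∑ j ∈ Finset.Icc 1 (p - 1), α j • (X ^ j * x * m * Xi ^ (j - 1)) ∈ V' := by
        rw [Finset.mul_sum]
        refine Submodule.sum_mem _ fun j hj => ?_
        rw [Finset.mem_Icc] at hj
        rw [mul_smul_comm]
        exact V'.smul_mem _ (t4 j hj.1 (by omega))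
      have h4 := V'.sub_mem h3 (V'.smul_mem (α p) t8)
      convert h4 using 1
      abel
    have h3 : α p • (x * m * X * X) ∈ V' := by
      have e : α p • (x * m * X * X) = -(cxx • (x * (X * m * x)) + cyy • (x * (y * m * y)) +
          (x * SA - α p • (x * m * X * X)) + x * SB) := by
        rw [mul_add, mul_add, mul_add, mul_add, mul_smul_comm, mul_smul_comm, mul_smul_comm, t2,
          smul_zero] at hx0
        apply eq_neg_of_add_eq_zero_left
        rw [← hx0]; abel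
      rw [e]
      exact V'.neg_mem (V'.add_mem (V'.add_mem (V'.add_mem (V'.smul_mem _ t1) (V'.smul_mem _ t3))
        hSA') hSB')
    exact (V'.smul_mem_iff hne).1 h3

end

theorem KLA : St_KLA := by
  intro D W X Xi x y m p q la lb F hx hy h1 h2 hxy hp hq hD L
  have hQ0 := Q0 F L h1 h2 hxy hp hq hD
  have hQ1 := Q1 F L h1 h2 hxy hp hq hD
  have hxmx : x * m * x ∈ W ^ (p + q + 2) := by rw [mul_assoc]; exact mpm (pmm L.hm hx) hx
  obtain ⟨z, hz, b, hb, hzb⟩ := Submodule.mem_sup.1 (L2 F L h1 h2 hxy hp hq hD hxmx)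
  obtain ⟨μ, rfl⟩ := Submodule.mem_span_singleton.1 hb
  -- `x m x = μ x m X + z`
  obtain ⟨hxxm, hmxx⟩ := xxm L hp
  obtain ⟨hyym, hmyy⟩ := xxm (swap L) hq
  set V := ln X * W ^ (p + q + 1) with hV
  set V' := ln X * W ^ (p + q + 2) with hV'
  set u := (1 - μ) • x - μ • y with hu
  have hxmu : x * m * u = z := by
    have e1 : x * m * u = x * m * x - μ • (x * m * X) := by
      rw [hu, ← hxy]
      simp only [mul_sub, mul_add, mul_smul_comm, sub_smul, one_smul, smul_add]
      abel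
    rw [e1, ← hzb]
    abel
  have huW : u ∈ W := W.sub_mem (W.smul_mem _ hx) (W.smul_mem _ hy)
  have h3 : x * m * u * u ∈ V' := by rw [hxmu]; exact V_mul hz huW
  have h4 : x * m * u * u = (-(μ * (1 - μ))) • (x * m * X * X) := by
    have e1 : m * u * u = (-(μ * (1 - μ))) • (m * X * X) := by
      have e2 : m * u * u = (1 - μ) ^ 2 • (m * x * x) + (μ ^ 2) • (m * y * y) -
          (μ * (1 - μ)) • (m * x * y + m * y * x) := by
        rw [hu]
        simp only [mul_sub, sub_mul, mul_smul_comm, smul_mul_assoc, smul_sub, smul_add, smul_smul,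
          mul_assoc]
        module
      have e3 : m * X * X = m * x * x + m * y * y + (m * x * y + m * y * x) := by
        rw [← hxy]; noncomm_ring
      rw [e2, e3, hmxx, hmyy]
      module
    calc x * m * u * u = x * (m * u * u) := by simp only [mul_assoc]
      _ = _ := by rw [e1, mul_smul_comm]; simp only [mul_assoc]
  have h5 : μ * (1 - μ) = 0 := by
    by_contra hne
    apply hQ1
    rw [h4] at h3
    exact (V'.smul_mem_iff (neg_ne_zero.2 hne)).1 h3
  rcases mul_eq_zero.1 h5 with h6 | h6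
  · -- `μ = 0`: `x m x ∈ V`
    right
    have h7 : x * m * x ∈ V := by
      rw [← hzb, h6, zero_smul, add_zero]; exact hz
    refine caseA F hy hx (swap L) h1 h2 (by rw [add_comm]; exact hxy) hq hp (by omega) ?_
    have : y * m * x = X * (m * x) - x * m * x := by
      rw [← hxy]; simp only [mul_assoc, add_mul, add_sub_cancel_left]
    rw [this, add_comm q p]
    exact V.sub_mem (memV (pmm L.hm hx)) h7
  · -- `μ = 1`
    left
    refine caseA F hx hy L h1 h2 hxy hp hq hD ?_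
    have h7 : μ = 1 := by linear_combination -h6
    have : x * m * y = -z := by
      rw [h7, one_smul] at hzb
      have e : x * m * X = x * m * x + x * m * y := by rw [← hxy, mul_add]
      rw [e] at hzb
      have h8 : z + x * m * y = 0 := by
        have := sub_eq_zero.2 hzb
        rw [← this]; abel
      exact eq_neg_of_add_eq_zero_right h8
    rw [this]
    exact V.neg_mem hz

end Pool.Agent.Y495.MPS
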